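import Pool.Agent.H705.TR.Stm

/-!
# TR UP: if the first rough level is not free then the level falls by more than `z`
-/

set_option autoImplicit false

namespace Pool.Agent.H665.TR

open Pool.Agent.H705.TR

theorem b_cases (m : ℕ) : b m = 0 ∨ b m = 2 ∨ b m = 6 := by
  unfold b
  split_ifs <;> simp

theorem T_UP (hFLB : P_FLB) (hJMP : P_JMP) (hLNK : P_LNK) : P_UP := by
  intro z L K n c x hOk hz hL hR
  obtain ⟨n', c', hn1, hn', hc', hc, hLc, hfl, hRz, hNF⟩ := hLNK z L _ K n c x hOk hR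
  obtain ⟨f1, f2, f3, f4⟩ := hFLB
  obtain ⟨p, β, hp, hβ, hpc, hpd⟩ : ∃ p β : ℕ, p.Prime ∧ (β = 0 ∨ β = 2 ∨ β = 6) ∧
      p ^ 2 ≤ c' + β ∧ p ∣ x c' + β := by
    by_contra h
    push Not at h
    apply hNF
    refine ⟨fun p hp h1 h2 => ?_, fun p hp h1 h2 => ?_, fun p hp h1 h2 => ?_⟩
    · exact h p 0 hp (Or.inl rfl) (by simpa using h1) (by simpa using h2)
    · exact h p 2 hp (Or.inr (Or.inl rfl)) h1 h2
    · exact h p 6 hp (Or.inr (Or.inr rfl)) h1 h2
  have hc9 : 9 ≤ c' := by omega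
  obtain ⟨j1, j2, j3, j4, j5, j6⟩ := hJMP c' (x c') n' p β hn1 hc9 hp hβ hpc hpd
  generalize jm n' c' (x c') = m at *
  have hβ6 : β ≤ 6 := by omega
  have hps : p ≤ Nat.sqrt (c + 6) := by
    rw [Nat.le_sqrt]
    have : p * p = p ^ 2 := (sq p).symm
    omega
  have e1 : fl x n' c' = fl x m c' := by
    have h := f4 x n' c' (m - n') (by omega) (fun i hi => j3 (n' + i) (by omega) (by omega))
    have h2 : n' + (m - n') = m := by omega
    rw [h2] at h
    exact h
  have e2 : fl x m c' = fl x (m + 1) (c' - m - max 1 (G c' m (x c')) + (m + 1)) := by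
    rw [fl, dif_neg (by omega)]
  have h3 := (f1 x (m + 1) (c' - m - max 1 (G c' m (x c')) + (m + 1))).2
  rw [← e2, ← e1, ← hfl] at h3
  have h4 : max 1 (G c' m (x c')) = G c' m (x c') := max_eq_right (by omega)
  rw [h4] at h3
  have h5 : m + 1 ≤ c' - m - G c' m (x c') + (m + 1) := by omega
  rw [max_eq_right h5] at h3
  have hq : (G c' m (x c')).minFac.Prime := Nat.minFac_prime (by omega)
  have hqd : (G c' m (x c')).minFac ∣ x c' + b m := (Nat.minFac_dvd _).trans j6
  have hqz : z < (G c' m (x c')).minFac := by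
    by_contra hle
    push Not at hle
    refine hRz _ hq hle (b m) (b_cases m) ?_ hqd
    have h6 : (G c' m (x c')).minFac ^ 2 ≤ z ^ 2 := Nat.pow_le_pow_left hle 2
    omega
  have hqg : (G c' m (x c')).minFac ≤ G c' m (x c') := Nat.minFac_le (by omega)
  omega

end Pool.Agent.H665.TR
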